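import Pool.Agent.N659.HB.Stm10
import Pool.Agent.N776.KG.Trg

/-!
# A coupling of the Gaussian law with a law of bounded support

Project SN of helper659, part SN/CPL, by helper27 (`vr_pos` is by helper776).
-/

set_option autoImplicit false

namespace Pool.Agent.N27.SN

open MeasureTheory Filter ProbabilityTheory Pool.Agent.W792.LL Pool.Agent.W792.WA
  Pool.Agent.N659.HB Pool.Agent.N776.KG
open scoped Topology ENNReal NNReal

noncomputable section

/-- affine images of Lebesgue measure -/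
theorem map_affine (a q : ℝ) (hq : 0 ≤ q) :
    Measure.map (fun u : ℝ => (u - a) / q) (volume.restrict (Set.Ioc a (a + q))) =
      ENNReal.ofReal q • volume.restrict (Set.Ioc (0 : ℝ) 1) := by
  rcases hq.eq_or_lt with rfl | hq
  · rw [add_zero, Set.Ioc_self, Measure.restrict_empty, Measure.map_zero, ENNReal.ofReal_zero,
      zero_smul]
  · have hf : Measurable (fun u : ℝ => (u - a) / q) := by fun_prop
    have h1 : Set.Ioc a (a + q) = (fun u : ℝ => (u - a) / q) ⁻¹' Set.Ioc 0 1 := by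
      ext u
      rw [Set.mem_preimage, Set.mem_Ioc, Set.mem_Ioc, lt_div_iff₀ hq, div_le_iff₀ hq]
      constructor
      · rintro ⟨h1, h2⟩
        constructor <;> linarith
      · rintro ⟨h1, h2⟩
        constructor <;> linarith
    rw [h1, ← Measure.restrict_map hf measurableSet_Ioc]
    have h2 : Measure.map (fun u : ℝ => (u - a) / q) volume = ENNReal.ofReal q • volume := by
      have e1 : (fun u : ℝ => (u - a) / q) = (fun u => q⁻¹ * u) ∘ fun u => u - a := by
        funext u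
        rw [Function.comp_apply, div_eq_inv_mul]
      rw [e1, ← Measure.map_map (by fun_prop) (by fun_prop), map_sub_right_eq_self,
        Real.map_volume_mul_left (inv_ne_zero hq.ne'), inv_inv, abs_of_pos hq]
    rw [h2, Measure.restrict_smul]

/-- gluing of two functions -/
def glue (p : ℝ) (Y Z : MX) : MX :=
  ⟨fun u => if u ≤ 1 - p then Y.1 ((u - 0) / (1 - p)) else Z.1 ((u - (1 - p)) / p),
    Measurable.ite measurableSet_Iic (Y.2.comp (by fun_prop)) (Z.2.comp (by fun_prop))⟩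

theorem qlaw_glue {p : ℝ} (h0 : 0 ≤ p) (h1 : p ≤ 1) (Y Z : MX) :
    qlaw (glue p Y Z) = ENNReal.ofReal (1 - p) • qlaw Y + ENNReal.ofReal p • qlaw Z := by
  unfold qlaw
  have e0 : volume.restrict (Set.Ioc (0 : ℝ) 1) = volume.restrict (Set.Ioc (0 : ℝ) (1 - p)) +
      volume.restrict (Set.Ioc (1 - p) (1 - p + p)) := by
    rw [sub_add_cancel, ← Measure.restrict_union _ measurableSet_Ioc,
      Set.Ioc_union_Ioc_eq_Ioc (by linarith) (by linarith)]
    rw [Set.disjoint_left]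
    intro x hx hx'
    exact absurd hx'.1 (not_lt.2 hx.2)
  rw [e0, Measure.map_add _ _ (glue p Y Z).2]
  congr 1
  · have e1 : Measure.map (glue p Y Z).1 (volume.restrict (Set.Ioc (0 : ℝ) (1 - p))) =
        Measure.map (Y.1 ∘ fun u : ℝ => (u - 0) / (1 - p))
          (volume.restrict (Set.Ioc (0 : ℝ) (1 - p))) := by
      refine Measure.map_congr ?_
      refine (ae_restrict_iff' measurableSet_Ioc).2 (ae_of_all _ fun u hu => ?_)
      show (if u ≤ 1 - p then Y.1 ((u - 0) / (1 - p)) else Z.1 ((u - (1 - p)) / p)) = _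
      rw [if_pos hu.2]
      rfl
    have e2 := map_affine 0 (1 - p) (by linarith)
    rw [zero_add] at e2
    rw [e1, ← Measure.map_map Y.2 (by fun_prop), e2, Measure.map_smul, ← e0]
  · have e1 : Measure.map (glue p Y Z).1 (volume.restrict (Set.Ioc (1 - p) (1 - p + p))) =
        Measure.map (Z.1 ∘ fun u : ℝ => (u - (1 - p)) / p)
          (volume.restrict (Set.Ioc (1 - p) (1 - p + p))) := by
      refine Measure.map_congr ?_
      refine (ae_restrict_iff' measurableSet_Ioc).2 (ae_of_all _ fun u hu => ?_)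
      show (if u ≤ 1 - p then Y.1 ((u - 0) / (1 - p)) else Z.1 ((u - (1 - p)) / p)) = _
      rw [if_neg (not_le.2 hu.1)]
      rfl
    rw [e1, ← Measure.map_map Z.2 (by fun_prop), map_affine _ _ h0, Measure.map_smul, ← e0]

theorem cd_glue (hCay : S_CAY) {p : ℝ} (h0 : 0 ≤ p) (h1 : p ≤ 1) (Y Z Z' : MX) :
    cd (glue p Y Z) (glue p Y Z') ≤ 4 * p := by
  unfold cd
  have e1 : ∫ u in Set.Ioc (0 : ℝ) 1, (Set.Ioi (1 - p)).indicator (fun _ => (4 : ℝ)) u = 4 * p := by
    rw [setIntegral_indicator measurableSet_Ioi, setIntegral_const]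
    have e2 : Set.Ioc (0 : ℝ) 1 ∩ Set.Ioi (1 - p) = Set.Ioc (1 - p) 1 := by
      ext u
      rw [Set.mem_inter_iff, Set.mem_Ioc, Set.mem_Ioi, Set.mem_Ioc]
      constructor
      · rintro ⟨⟨h2, h3⟩, h4⟩
        exact ⟨h4, h3⟩
      · rintro ⟨h2, h3⟩
        exact ⟨⟨by linarith, h3⟩, h2⟩
    rw [e2, Real.volume_real_Ioc_of_le (by linarith), smul_eq_mul]
    ring
  rw [← e1]
  refine integral_mono_of_nonneg (ae_of_all _ fun u => sq_nonneg _) ?_ (ae_of_all _ fun u => ?_)
  · have : IsFiniteMeasure (volume.restrict (Set.Ioc (0 : ℝ) 1)) := ⟨by simp⟩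
    exact (integrable_const (4 : ℝ)).indicator measurableSet_Ioi
  · show ‖cay (if u ≤ 1 - p then Y.1 ((u - 0) / (1 - p)) else Z.1 ((u - (1 - p)) / p)) -
      cay (if u ≤ 1 - p then Y.1 ((u - 0) / (1 - p)) else Z'.1 ((u - (1 - p)) / p))‖ ^ 2 ≤
      (Set.Ioi (1 - p)).indicator (fun _ => (4 : ℝ)) u
    by_cases hu : u ≤ 1 - p
    · rw [if_pos hu, if_pos hu, sub_self, norm_zero, zero_pow two_ne_zero]
      exact Set.indicator_nonneg (fun _ _ => by norm_num) _
    · rw [if_neg hu, if_neg hu, Set.indicator_of_mem (show u ∈ Set.Ioi (1 - p) from not_le.1 hu)]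
      have e2 : ‖cay (Z.1 ((u - (1 - p)) / p)) - cay (Z'.1 ((u - (1 - p)) / p))‖ ≤ 2 := by
        refine (norm_sub_le _ _).trans ?_
        rw [hCay.1, hCay.1]
        norm_num
      have e3 := norm_nonneg (cay (Z.1 ((u - (1 - p)) / p)) - cay (Z'.1 ((u - (1 - p)) / p)))
      nlinarith

/-- the Gaussian tail -/
theorem tail (s w : ℝ) (hs : 0 < s) (hw : 0 ≤ w) :
    (gs s).real (Set.Icc (-w) w)ᶜ ≤ 2 * Real.exp (-(w ^ 2 / (2 * s ^ 2))) := by
  have hm : ∀ t : ℝ, mgf id (gs s) t = Real.exp (s ^ 2 * t ^ 2 / 2) := fun t => by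
    have := int_exp s t
    unfold mgf
    exact this
  have hi : ∀ t : ℝ, Integrable (fun x : ℝ => Real.exp (t * id x)) (gs s) := fun t =>
    integrable_exp_mul_gaussianReal t
  have h1 := measure_ge_le_exp_mul_mgf (μ := gs s) (X := id) (t := w / s ^ 2) w (by positivity)
    (hi _)
  have h2 := measure_le_le_exp_mul_mgf (μ := gs s) (X := id) (t := -(w / s ^ 2)) (-w)
    (by
      have : 0 ≤ w / s ^ 2 := by positivity
      linarith) (hi _)
  rw [hm, ← Real.exp_add] at h1 h2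
  have e1 : -(w / s ^ 2) * w + s ^ 2 * (w / s ^ 2) ^ 2 / 2 = -(w ^ 2 / (2 * s ^ 2)) := by
    field_simp
    ring
  have e2 : -(-(w / s ^ 2)) * -w + s ^ 2 * (-(w / s ^ 2)) ^ 2 / 2 = -(w ^ 2 / (2 * s ^ 2)) := by
    field_simp
    ring
  rw [e1] at h1
  rw [e2] at h2
  have h3 : (Set.Icc (-w) w)ᶜ ⊆ {x : ℝ | w ≤ id x} ∪ {x : ℝ | id x ≤ -w} := by
    intro x hx
    rw [Set.mem_compl_iff, Set.mem_Icc, not_and_or, not_le, not_le] at hx
    rcases hx with hx | hx
    · exact Or.inr hx.le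
    · exact Or.inl hx.le
  calc (gs s).real (Set.Icc (-w) w)ᶜ ≤ (gs s).real ({x : ℝ | w ≤ id x} ∪ {x : ℝ | id x ≤ -w}) :=
        measureReal_mono h3
    _ ≤ (gs s).real {x : ℝ | w ≤ id x} + (gs s).real {x : ℝ | id x ≤ -w} :=
        measureReal_union_le _ _
    _ ≤ 2 * Real.exp (-(w ^ 2 / (2 * s ^ 2))) := by linarith

/-- **SN/CPL.** -/
theorem main : S_QNT2 → S_CAY → S_CPL := by
  intro hQ hCay s hs
  refine ⟨2 * s, by positivity, fun w hw => ?_⟩
  have hw0 : 0 ≤ w := by linarith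
  obtain ⟨S, hS⟩ : ∃ S, S = Set.Icc (-w) w := ⟨_, rfl⟩
  have hSm : MeasurableSet S := by
    rw [hS]
    exact measurableSet_Icc
  obtain ⟨p, hp⟩ : ∃ p, p = (gs s).real Sᶜ := ⟨_, rfl⟩
  obtain ⟨E, hE⟩ : ∃ E, E = Real.exp (-(w ^ 2 / (2 * s ^ 2))) := ⟨_, rfl⟩
  have hpE : p ≤ 2 * E := by
    rw [hp, hE, hS]
    exact tail s w hs hw0
  have hE4 : E ≤ 1 / 4 := by
    rw [hE, Real.exp_neg, inv_eq_one_div]
    apply one_div_le_one_div_of_le (by norm_num)
    have e1 : 2 ≤ w ^ 2 / (2 * s ^ 2) := by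
      rw [le_div_iff₀ (by positivity)]
      nlinarith
    have e2 := Real.quadratic_le_exp_of_nonneg (x := 2) (by norm_num)
    have e3 := Real.exp_le_exp.2 e1
    linarith
  have hp2 : p ≤ 1 / 2 := by linarith
  have hp0 : 0 ≤ p := by
    rw [hp]
    exact measureReal_nonneg
  have hq : (gs s).real S = 1 - p := by
    have := probReal_compl_eq_one_sub (μ := gs s) hSm
    rw [hp]
    linarith
  have hqp : ENNReal.ofReal p = gs s Sᶜ := by
    rw [hp]
    exact ofReal_measureReal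
  have hqq : ENNReal.ofReal (1 - p) = gs s S := by
    rw [← hq]
    exact ofReal_measureReal
  have hS0 : gs s S ≠ 0 := by
    rw [← hqq]
    exact (ENNReal.ofReal_pos.2 (by linarith)).ne'
  have hST : gs s S ≠ ∞ := measure_ne_top _ _
  obtain ⟨Y, -, hY⟩ := haveI := cond_isProbabilityMeasure hS0; hQ (cond (gs s) S)
  obtain ⟨Z, hZ⟩ : ∃ Z : MX, gs s Sᶜ • qlaw Z = (gs s).restrict Sᶜ := by
    by_cases h0 : gs s Sᶜ = 0
    · exact ⟨Y, by rw [h0, zero_smul, Measure.restrict_eq_zero.2 h0]⟩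
    · obtain ⟨Z, -, hZ⟩ := haveI := cond_isProbabilityMeasure h0; hQ (cond (gs s) Sᶜ)
      refine ⟨Z, ?_⟩
      rw [hZ, ProbabilityTheory.cond, smul_smul, ENNReal.mul_inv_cancel h0 (measure_ne_top _ _),
        one_smul]
  have hX : qlaw (glue p Y Z) = gs s := by
    rw [qlaw_glue hp0 (by linarith), hqp, hqq, hZ, hY, ProbabilityTheory.cond, smul_smul,
      ENNReal.mul_inv_cancel hS0 hST, one_smul, Measure.restrict_add_restrict_compl hSm]
  have hX' : qlaw (glue p Y Y) = (gs s S)⁻¹ • (gs s).restrict S := by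
    rw [qlaw_glue hp0 (by linarith), ← add_smul, ← ENNReal.ofReal_add (by linarith) hp0,
      sub_add_cancel, ENNReal.ofReal_one, one_smul, hY, ProbabilityTheory.cond]
  rw [← hE, ← hS]
  refine ⟨glue p Y Z, glue p Y Y, hX, ?_, ?_, ?_, ?_, ?_, ?_⟩
  · rw [hX]
    refine vr_pos hCay _ fun a => ?_
    have hv : vv s ≠ 0 := by
      intro h
      have := congrArg NNReal.toReal h
      have h2 : s ^ 2 = 0 := this
      exact absurd h2 (by positivity)
    have := nullSingletonClass_gaussianReal (μ := 0) hv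
    have h3 : gs s {a} = 0 := measure_singleton (μ := gaussianReal 0 (vv s)) a
    rw [h3]
    exact one_pos
  · rw [hX']
    refine Measure.ae_smul_measure ?_ _
    refine (ae_restrict_iff' hSm).2 (ae_of_all _ fun x hx => ?_)
    rw [hS] at hx
    exact abs_le.2 hx
  · rw [hX']
    have h1 : (1 : ℝ≥0∞) ≤ (gs s S)⁻¹ := by
      rw [ENNReal.one_le_inv]
      exact prob_le_one
    intro A
    rw [Measure.smul_apply, smul_eq_mul]
    calc (gs s).restrict S A = 1 * (gs s).restrict S A := (one_mul _).symm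
      _ ≤ (gs s S)⁻¹ * (gs s).restrict S A := mul_le_mul_left h1 _
  · rw [hX']
    have h1 : (gs s S)⁻¹ ≤ 2 := by
      rw [ENNReal.inv_le_iff_inv_le, ← hqq]
      have e1 : (2 : ℝ≥0∞)⁻¹ = ENNReal.ofReal (1 / 2) := by
        rw [one_div, ENNReal.ofReal_inv_of_pos (by norm_num), ENNReal.ofReal_ofNat]
      rw [e1]
      exact ENNReal.ofReal_le_ofReal (by linarith)
    intro A
    rw [Measure.smul_apply, smul_eq_mul, Measure.smul_apply, smul_eq_mul]
    exact mul_le_mul_left h1 _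
  · refine (cd_glue hCay hp0 (by linarith) Y Z Y).trans ?_
    linarith
  · intro f hf hf1
    have hint : Integrable f (gs s) :=
      (integrable_const (1 : ℝ)).mono' hf.aestronglyMeasurable (ae_of_all _ hf1)
    rw [hX', integral_smul_measure, ENNReal.toReal_inv, ← integral_add_compl hSm hint]
    have e0 : (gs s S).toReal = 1 - p := hq
    rw [e0]
    obtain ⟨I, hI⟩ : ∃ I, I = ∫ x in S, f x ∂(gs s) := ⟨_, rfl⟩
    obtain ⟨J, hJ⟩ : ∃ J, J = ∫ x in Sᶜ, f x ∂(gs s) := ⟨_, rfl⟩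
    rw [← hI, ← hJ]
    have hIn : ‖I‖ ≤ 1 - p := by
      rw [hI, ← hq]
      have := norm_setIntegral_le_of_norm_le_const (μ := gs s) (s := S) (f := f) (C := 1)
        (measure_lt_top _ _) fun x _ => hf1 x
      linarith
    have hJn : ‖J‖ ≤ p := by
      rw [hJ, hp]
      have := norm_setIntegral_le_of_norm_le_const (μ := gs s) (s := Sᶜ) (f := f) (C := 1)
        (measure_lt_top _ _) fun x _ => hf1 x
      linarith
    have e1 : (1 - p)⁻¹ • I - (I + J) = ((1 - p)⁻¹ - 1) • I - J := by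
      rw [sub_smul, one_smul]
      ring
    have e2 : 0 ≤ (1 - p)⁻¹ - 1 := by
      have : 1 ≤ (1 - p)⁻¹ := (one_le_inv₀ (by linarith)).2 (by linarith)
      linarith
    rw [e1]
    calc ‖((1 - p)⁻¹ - 1) • I - J‖ ≤ ‖((1 - p)⁻¹ - 1) • I‖ + ‖J‖ := norm_sub_le _ _
      _ = ((1 - p)⁻¹ - 1) * ‖I‖ + ‖J‖ := by
          rw [norm_smul, Real.norm_of_nonneg e2]
      _ ≤ ((1 - p)⁻¹ - 1) * (1 - p) + p := add_le_add (mul_le_mul_of_nonneg_left hIn e2) hJn
      _ = 2 * p := by
          have : (1 - p)⁻¹ * (1 - p) = 1 := inv_mul_cancel₀ (by linarith)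
          linear_combination this
      _ ≤ 4 * E := by linarith

end

end Pool.Agent.N27.SN
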